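import Mathlib

open Real Matrix
open scoped LinearAlgebra.Projectivization MatrixGroups commutatorElement

namespace Pool.Agent.Results.MP_b43922_gt.ControlledMilnorWood

/-- The group `PSL(2,ℝ)` with its action on `ℝP¹ = ℙ ℝ (Fin 2 → ℝ)` from Mathlib. -/
abbrev PSL2R := Matrix.ProjectiveSpecialLinearGroup (Fin 2) ℝ

/-- The relator `[a_0,b_0][a_1,b_1]…[a_{g-1},b_{g-1}]`; the generator `a_i` is `(i, false)` and `b_i`
is `(i, true)`. -/
def surfaceRelator (g : ℕ) : FreeGroup (Fin g × Bool) :=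
  (List.ofFn fun i : Fin g => ⁅FreeGroup.of (i, false), FreeGroup.of (i, true)⁆).prod

/-- The fundamental group of the closed oriented surface of genus `g`. -/
abbrev SurfaceGroup (g : ℕ) := PresentedGroup ({surfaceRelator g} : Set (FreeGroup (Fin g × Bool)))

theorem vec_ne (x : ℝ) : (![cos (x / 2), sin (x / 2)] : Fin 2 → ℝ) ≠ 0 := by
  intro h
  have h0 := congrFun h 0
  have h1 := congrFun h 1
  simp at h0 h1
  have := cos_sq_add_sin_sq (x / 2)
  rw [h0, h1] at this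
  norm_num at this

/-- The parametrisation of the circle `ℝP¹` by `ℝ / 2πℤ`: the line spanned by
`(cos (x/2), sin (x/2))`. -/
noncomputable def pt (x : ℝ) : ℙ ℝ (Fin 2 → ℝ) :=
  Projectivization.mk ℝ ![cos (x / 2), sin (x / 2)] (vec_ne x)

/-- The matrix of rotation of the plane by `t / 2`. -/
noncomputable def rotMat (t : ℝ) : SL(2, ℝ) :=
  ⟨!![cos (t / 2), -sin (t / 2); sin (t / 2), cos (t / 2)], by
    rw [Matrix.det_fin_two_of]; have := cos_sq_add_sin_sq (t / 2); nlinarith⟩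

/-- The element of `PSL(2,ℝ)` that rotates the circle `ℝP¹` (of length `2π`) by `t`. -/
noncomputable def rot (t : ℝ) : PSL2R := (rotMat t : SL(2, ℝ))

/-- `ClosePSL ε p q`: the sup norm distance, in the rotation invariant length metric of total
length `2π` on `ℝP¹`, between the maps `p` and `q` is at most `ε`. -/
def ClosePSL (ε : ℝ) (p q : PSL2R) : Prop :=
  ∀ x y z : ℝ, p • pt x = pt y → q • pt x = pt z → ∃ k : ℤ, |y - z - 2 * π * k| ≤ ε

/-- A homeomorphism `F` of `ℝ` is a lift of the projective transformation `p` of the circle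
`ℝP¹ = ℝ / 2πℤ`. -/
def IsLift (p : PSL2R) (F : ℝ ≃ₜ ℝ) : Prop :=
  (∀ x, F (x + 2 * π) = F x + 2 * π) ∧ ∀ x, p • pt x = pt (F x)

/-- `HasEulerNumber ρ e`: the flat circle bundle with holonomy `ρ` has Euler number `e`:
for lifts `α i`, `β i` of the images of the standard generators, the product of commutators
`[α i, β i]` is the translation by `2 π e`. -/
def HasEulerNumber {g : ℕ} (ρ : SurfaceGroup g →* PSL2R) (e : ℤ) : Prop :=
  ∃ α β : Fin g → (ℝ ≃ₜ ℝ),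
    (∀ i, IsLift (ρ (PresentedGroup.of (i, false))) (α i)) ∧
    (∀ i, IsLift (ρ (PresentedGroup.of (i, true))) (β i)) ∧
    ∀ x, (List.ofFn fun i => ⁅α i, β i⁆).prod x = x + 2 * π * e

/-- Every element of `ρ(S)` lies within sup norm distance `ε` of some rotation. -/
def NearRotations {g : ℕ} (ε : ℝ) (S : Set (SurfaceGroup g)) (ρ : SurfaceGroup g →* PSL2R) : Prop :=
  ∀ s ∈ S, ∃ t : ℝ, ClosePSL ε (ρ s) (rot t)

/-- The set of genera admissible for the Euler number `e` and the tolerance `ε`. -/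
def admissible (e : ℤ) (ε : ℝ) : Set ℕ :=
  {g | ∃ (S : Set (SurfaceGroup g)) (ρ : SurfaceGroup g →* PSL2R),
    Subgroup.closure S = ⊤ ∧ HasEulerNumber ρ e ∧ NearRotations ε S ρ}

/-- The smallest admissible genus `g_e(ε)`. -/
noncomputable def gMin (e : ℤ) (ε : ℝ) : ℕ := sInf (admissible e ε)

/-! ### lifts -/

theorem pt_eq_iff (x y : ℝ) : pt x = pt y ↔ ∃ k : ℤ, x - y = 2 * π * k := by
  unfold pt
  rw [Projectivization.mk_eq_mk_iff']
  constructor
  · rintro ⟨a, ha⟩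
    have h0 := congrFun ha 0
    have h1 := congrFun ha 1
    simp at h0 h1
    have hs : sin ((x - y) / 2) = 0 := by
      have : (x - y) / 2 = x / 2 - y / 2 := by ring
      rw [this, sin_sub, ← h0, ← h1]; ring
    obtain ⟨n, hn⟩ := sin_eq_zero_iff.1 hs
    refine ⟨n, ?_⟩
    linarith
  · rintro ⟨k, hk⟩
    have hx : x / 2 = y / 2 + k * π := by linarith
    refine ⟨(-1) ^ k, ?_⟩
    ext i
    fin_cases i
    · simp [hx, cos_add_int_mul_pi]
    · simp [hx, sin_add_int_mul_pi]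

theorem exists_pt (q : ℙ ℝ (Fin 2 → ℝ)) : ∃ x, q = pt x := by
  induction q using Projectivization.ind with | _ v hv =>
  set z : ℂ := ⟨v 0, v 1⟩ with hz
  have hz0 : z ≠ 0 := by
    intro h
    apply hv
    ext i
    fin_cases i
    · have := congrArg Complex.re h; simpa [hz] using this
    · have := congrArg Complex.im h; simpa [hz] using this
  refine ⟨2 * Complex.arg z, ?_⟩
  unfold pt
  rw [Projectivization.mk_eq_mk_iff']
  refine ⟨‖z‖, ?_⟩
  ext i
  fin_cases i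
  · simp [Complex.norm_mul_cos_arg, hz]
  · simp [Complex.norm_mul_sin_arg, hz]

theorem IsLift.mul {p q : PSL2R} {F G : ℝ ≃ₜ ℝ} (hF : IsLift p F) (hG : IsLift q G) :
    IsLift (p * q) (F * G) := by
  refine ⟨fun x => ?_, fun x => ?_⟩
  · simp [hG.1, hF.1]
  · rw [mul_smul, hG.2, hF.2]; rfl

theorem IsLift.inv {p : PSL2R} {F : ℝ ≃ₜ ℝ} (hF : IsLift p F) : IsLift p⁻¹ F⁻¹ := by
  refine ⟨fun x => ?_, fun x => ?_⟩
  · apply F.injective
    rw [hF.1]
    simp
  · rw [inv_smul_eq_iff, hF.2]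
    simp

theorem IsLift.one : IsLift 1 1 := ⟨fun x => rfl, fun x => by simp⟩

theorem IsLift.pow {p : PSL2R} {F : ℝ ≃ₜ ℝ} (hF : IsLift p F) (n : ℕ) : IsLift (p ^ n) (F ^ n) := by
  induction n with
  | zero => simpa using IsLift.one
  | succ n ih => rw [pow_succ, pow_succ]; exact ih.mul hF

theorem IsLift.comm {p q : PSL2R} {F G : ℝ ≃ₜ ℝ} (hF : IsLift p F) (hG : IsLift q G) :
    IsLift ⁅p, q⁆ ⁅F, G⁆ := by
  rw [commutatorElement_def, commutatorElement_def]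
  exact ((hF.mul hG).mul hF.inv).mul hG.inv

theorem IsLift.list_prod : ∀ (l : List (PSL2R × (ℝ ≃ₜ ℝ))), (∀ a ∈ l, IsLift a.1 a.2) →
    IsLift (l.map Prod.fst).prod (l.map Prod.snd).prod
  | [], _ => by simpa using IsLift.one
  | a :: l, h => by
      simp only [List.map_cons, List.prod_cons]
      exact (h a (by simp)).mul (IsLift.list_prod l fun b hb => h b (by simp [hb]))

theorem IsLift.ofFn_prod {n : ℕ} (p : Fin n → PSL2R) (F : Fin n → (ℝ ≃ₜ ℝ))
    (h : ∀ i, IsLift (p i) (F i)) : IsLift (List.ofFn p).prod (List.ofFn F).prod := by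
  have := IsLift.list_prod (List.ofFn fun i => (p i, F i)) (by
    intro a ha
    rw [List.mem_ofFn] at ha
    obtain ⟨i, rfl⟩ := ha
    exact h i)
  rw [List.map_ofFn, List.map_ofFn] at this
  exact this

/-- rotation lifts -/
noncomputable abbrev tr (t : ℝ) : ℝ ≃ₜ ℝ := Homeomorph.addRight t

theorem smul_pt_eq (A : SL(2, ℝ)) (x y r : ℝ)
    (h0 : A.1 0 0 * cos (x / 2) + A.1 0 1 * sin (x / 2) = r * cos (y / 2))
    (h1 : A.1 1 0 * cos (x / 2) + A.1 1 1 * sin (x / 2) = r * sin (y / 2)) :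
    (A : PSL2R) • pt x = pt y := by
  unfold pt
  rw [Matrix.ProjectiveSpecialLinearGroup.smul_proj_mk, Projectivization.smul_mk,
    Projectivization.mk_eq_mk_iff']
  refine ⟨r, ?_⟩
  change r • ![cos (y / 2), sin (y / 2)] = A.1 *ᵥ ![cos (x / 2), sin (x / 2)]
  ext i
  fin_cases i
  · simp [Matrix.mulVec, dotProduct, Fin.sum_univ_two, ← h0]
  · simp [Matrix.mulVec, dotProduct, Fin.sum_univ_two, ← h1]

theorem isLift_rot (t : ℝ) : IsLift (rot t) (tr t) := by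
  refine ⟨fun x => by simp [tr]; ring, fun x => ?_⟩
  have e : (x + t) / 2 = x / 2 + t / 2 := by ring
  apply smul_pt_eq _ _ _ 1
  · simp [rotMat, tr, e, cos_add]; ring
  · simp [rotMat, tr, e, sin_add]; ring

theorem eq_one_of_lift {p : PSL2R} {F : ℝ ≃ₜ ℝ} (hF : IsLift p F) (k : ℤ)
    (h : ∀ x, F x = x + 2 * π * k) : p = 1 := by
  apply eq_of_smul_eq_smul (α := ℙ ℝ (Fin 2 → ℝ))
  intro q
  obtain ⟨x, rfl⟩ := exists_pt q
  rw [hF.2, one_smul, pt_eq_iff]
  exact ⟨k, by rw [h]; ring⟩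

/-! ### diagonal matrices -/

noncomputable def dN (s x : ℝ) : ℝ := (1 - s ^ 2) * (sin (x / 2) * cos (x / 2))
noncomputable def dD (s x : ℝ) : ℝ := s ^ 2 * cos (x / 2) ^ 2 + sin (x / 2) ^ 2
noncomputable def dl (s x : ℝ) : ℝ := 2 * arctan (dN s x / dD s x)
noncomputable def hf (s x : ℝ) : ℝ := x + dl s x

theorem dD_pos {s : ℝ} (hs : 0 < s) (x : ℝ) : 0 < dD s x := by
  unfold dD
  have h := cos_sq_add_sin_sq (x / 2)
  rcases eq_or_ne (cos (x / 2)) 0 with hc | hc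
  · rw [hc] at h ⊢; nlinarith
  · have : 0 < cos (x / 2) ^ 2 := by positivity
    have h2 : 0 < s ^ 2 * cos (x / 2) ^ 2 := by positivity
    nlinarith [sq_nonneg (sin (x / 2))]

theorem abs_dl_lt (s x : ℝ) : |dl s x| < π := by
  unfold dl
  have h1 := arctan_lt_pi_div_two (dN s x / dD s x)
  have h2 := neg_pi_div_two_lt_arctan (dN s x / dD s x)
  rw [abs_lt]
  constructor <;> linarith

theorem hf_vec {s : ℝ} (hs : 0 < s) (x : ℝ) : ∃ r : ℝ, 0 < r ∧
    s * cos (x / 2) = r * cos (hf s x / 2) ∧ s⁻¹ * sin (x / 2) = r * sin (hf s x / 2) := by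
  have hD := dD_pos hs x
  set u := dN s x / dD s x with hu
  set q := √(1 + u ^ 2) with hq
  have hq0 : 0 < q := Real.sqrt_pos.2 (by positivity)
  have hh : hf s x / 2 = x / 2 + arctan u := by unfold hf dl; ring
  have hN : u * dD s x = dN s x := by rw [hu]; field_simp
  have hcs := cos_sq_add_sin_sq (x / 2)
  have hc : cos (arctan u) = 1 / q := by rw [cos_arctan]
  have hsn : sin (arctan u) = u / q := by rw [sin_arctan]
  refine ⟨s⁻¹ * dD s x * q, by positivity, ?_, ?_⟩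
  · rw [hh, cos_add, hc, hsn]
    have : s⁻¹ * dD s x * q * (cos (x / 2) * (1 / q) - sin (x / 2) * (u / q)) =
      s⁻¹ * (dD s x * cos (x / 2) - (u * dD s x) * sin (x / 2)) := by
      field_simp
    rw [this, hN]
    unfold dD dN
    have h3 : (s ^ 2 * cos (x / 2) ^ 2 + sin (x / 2) ^ 2) * cos (x / 2) -
      (1 - s ^ 2) * (sin (x / 2) * cos (x / 2)) * sin (x / 2) =
      s ^ 2 * cos (x / 2) * (cos (x / 2) ^ 2 + sin (x / 2) ^ 2) := by ring
    rw [h3, hcs]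
    field_simp
  · rw [hh, sin_add, hc, hsn]
    have : s⁻¹ * dD s x * q * (sin (x / 2) * (1 / q) + cos (x / 2) * (u / q)) =
      s⁻¹ * (dD s x * sin (x / 2) + (u * dD s x) * cos (x / 2)) := by
      field_simp
    rw [this, hN]
    unfold dD dN
    have h3 : (s ^ 2 * cos (x / 2) ^ 2 + sin (x / 2) ^ 2) * sin (x / 2) +
      (1 - s ^ 2) * (sin (x / 2) * cos (x / 2)) * cos (x / 2) =
      sin (x / 2) * (cos (x / 2) ^ 2 + sin (x / 2) ^ 2) := by ring
    rw [h3, hcs]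
    ring

theorem eq_of_vec {r r' y y' : ℝ} (hr : 0 < r) (hr' : 0 < r')
    (hc : r * cos (y / 2) = r' * cos (y' / 2)) (hs : r * sin (y / 2) = r' * sin (y' / 2))
    (hlt : |y - y'| < 4 * π) : y = y' := by
  have h1 := cos_sq_add_sin_sq (y / 2)
  have h2 := cos_sq_add_sin_sq (y' / 2)
  have hrr : r = r' := by
    have : r ^ 2 = r' ^ 2 := by
      calc r ^ 2 = (r * cos (y / 2)) ^ 2 + (r * sin (y / 2)) ^ 2 := by
            rw [mul_pow, mul_pow, ← mul_add, h1, mul_one]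
        _ = (r' * cos (y' / 2)) ^ 2 + (r' * sin (y' / 2)) ^ 2 := by rw [hc, hs]
        _ = r' ^ 2 := by rw [mul_pow, mul_pow, ← mul_add, h2, mul_one]
    exact (pow_left_inj₀ hr.le hr'.le two_ne_zero).1 this
  subst hrr
  have hc' : cos (y / 2) = cos (y' / 2) := mul_left_cancel₀ hr.ne' hc
  have hs' : sin (y / 2) = sin (y' / 2) := mul_left_cancel₀ hr.ne' hs
  have h3 : cos ((y - y') / 2) = 1 := by
    have : (y - y') / 2 = y / 2 - y' / 2 := by ring
    rw [this, cos_sub, hc', hs']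
    nlinarith
  rw [abs_lt] at hlt
  have h4 := (Real.cos_eq_one_iff_of_lt_of_lt (by linarith [hlt.1]) (by linarith [hlt.2])).1 h3
  linarith

theorem hf_hf {s t : ℝ} (hs : 0 < s) (ht : 0 < t) (x : ℝ) : hf s (hf t x) = hf (s * t) x := by
  obtain ⟨r1, hr1, hc1, hs1⟩ := hf_vec ht x
  obtain ⟨r2, hr2, hc2, hs2⟩ := hf_vec hs (hf t x)
  obtain ⟨r3, hr3, hc3, hs3⟩ := hf_vec (mul_pos hs ht) x
  apply eq_of_vec (mul_pos hr1 hr2) hr3
  · calc r1 * r2 * cos (hf s (hf t x) / 2) = r1 * (r2 * cos (hf s (hf t x) / 2)) := by ring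
      _ = s * (r1 * cos (hf t x / 2)) := by rw [← hc2]; ring
      _ = _ := by rw [← hc1, ← hc3]; ring
  · calc r1 * r2 * sin (hf s (hf t x) / 2) = r1 * (r2 * sin (hf s (hf t x) / 2)) := by ring
      _ = s⁻¹ * (r1 * sin (hf t x / 2)) := by rw [← hs2]; ring
      _ = _ := by rw [← hs1, ← hs3, mul_inv]; ring
  · have e : hf s (hf t x) - hf (s * t) x = dl s (hf t x) + dl t x - dl (s * t) x := by
      unfold hf; ring
    rw [e]
    have a1 := abs_lt.1 (abs_dl_lt s (hf t x))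
    have a2 := abs_lt.1 (abs_dl_lt t x)
    have a3 := abs_lt.1 (abs_dl_lt (s * t) x)
    have := pi_pos
    rw [abs_lt]
    constructor <;> linarith [a1.1, a1.2, a2.1, a2.2, a3.1, a3.2]

theorem hf_one (x : ℝ) : hf 1 x = x := by
  unfold hf dl dN; simp

theorem continuous_hf {s : ℝ} (hs : 0 < s) : Continuous (hf s) := by
  unfold hf dl
  have h1 : Continuous (dN s) := by unfold dN; fun_prop
  have h2 : Continuous (dD s) := by unfold dD; fun_prop
  exact continuous_id.add (continuous_const.mul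
    (continuous_arctan.comp (h1.div h2 fun x => (dD_pos hs x).ne')))

/-- The canonical lift of `diag(s, 1/s)`. -/
noncomputable def hT (s : ℝ) (hs : 0 < s) : ℝ ≃ₜ ℝ where
  toFun := hf s
  invFun := hf s⁻¹
  left_inv x := by rw [hf_hf (inv_pos.2 hs) hs, inv_mul_cancel₀ hs.ne', hf_one]
  right_inv x := by rw [hf_hf hs (inv_pos.2 hs), mul_inv_cancel₀ hs.ne', hf_one]
  continuous_toFun := continuous_hf hs
  continuous_invFun := continuous_hf (inv_pos.2 hs)

noncomputable def dMat (s : ℝ) (hs : 0 < s) : SL(2, ℝ) :=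
  ⟨!![s, 0; 0, s⁻¹], by rw [Matrix.det_fin_two_of]; field_simp; ring⟩

theorem dl_periodic (s x : ℝ) : dl s (x + 2 * π) = dl s x := by
  unfold dl dN dD
  have e : (x + 2 * π) / 2 = x / 2 + π := by ring
  rw [e, sin_add_pi, cos_add_pi]
  ring_nf

theorem isLift_hT (s : ℝ) (hs : 0 < s) : IsLift (dMat s hs : PSL2R) (hT s hs) := by
  refine ⟨fun x => ?_, fun x => ?_⟩
  · change hf s (x + 2 * π) = hf s x + 2 * π
    unfold hf
    rw [dl_periodic]; ring
  · obtain ⟨r, hr, hc, hsn⟩ := hf_vec hs x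
    apply smul_pt_eq _ _ _ r
    · change s * cos (x / 2) + 0 * sin (x / 2) = r * cos (hf s x / 2)
      rw [← hc]; ring
    · change 0 * cos (x / 2) + s⁻¹ * sin (x / 2) = r * sin (hf s x / 2)
      rw [← hsn]; ring

theorem dl_conj_pi {s : ℝ} (hs : 0 < s) (x : ℝ) : dl s (x - π) = dl s⁻¹ x := by
  unfold dl dN dD
  have e : (x - π) / 2 = x / 2 - π / 2 := by ring
  rw [e, sin_sub_pi_div_two, cos_sub_pi_div_two]
  congr 2
  have h := cos_sq_add_sin_sq (x / 2)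
  have h1 : s ^ 2 * sin (x / 2) ^ 2 + (-cos (x / 2)) ^ 2 ≠ 0 := by
    have := (dD_pos (inv_pos.2 hs) x).ne'
    unfold dD at this
    intro h0
    apply this
    have : s⁻¹ ^ 2 * cos (x / 2) ^ 2 + sin (x / 2) ^ 2 =
      (s ^ 2)⁻¹ * (s ^ 2 * sin (x / 2) ^ 2 + (-cos (x / 2)) ^ 2) := by field_simp; ring
    rw [this, h0, mul_zero]
  have h2 : s⁻¹ ^ 2 * cos (x / 2) ^ 2 + sin (x / 2) ^ 2 ≠ 0 := (dD_pos (inv_pos.2 hs) x).ne'
  rw [div_eq_div_iff h1 h2]
  field_simp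
  ring

/-- `[T_s, R_π] = T_{s^2}` for the lifts. -/
theorem comm_hT (s : ℝ) (hs : 0 < s) : ⁅hT s hs, tr π⁆ = hT (s * s) (mul_pos hs hs) := by
  have h1 : tr π * (hT s hs)⁻¹ * (tr π)⁻¹ = hT s hs := by
    ext x
    simp only [Homeomorph.mul_apply, Homeomorph.inv_apply]
    change hf s⁻¹ (x + -π) + π = hf s x
    unfold hf
    have := dl_conj_pi (inv_pos.2 hs) x
    rw [inv_inv] at this
    rw [← sub_eq_add_neg, this]; ring
  rw [commutatorElement_def]
  have : hT s hs * tr π * (hT s hs)⁻¹ * (tr π)⁻¹ = hT s hs * (tr π * (hT s hs)⁻¹ * (tr π)⁻¹) := by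
    group
  rw [this, h1]
  ext x
  change hf s (hf s x) = hf (s * s) x
  exact hf_hf hs hs x

/-! ### the elliptic element -/

/-- the linear map `diag(t,1/t) ∘ rotation(ψ)` -/
noncomputable def step (t ψ : ℝ) (w : ℝ × ℝ) : ℝ × ℝ :=
  (t * (cos ψ * w.1 - sin ψ * w.2), t⁻¹ * (sin ψ * w.1 + cos ψ * w.2))

theorem step_step {t ψ θ : ℝ} (ht : 0 < t) (h : (t + t⁻¹) * cos ψ = 2 * cos θ) (w : ℝ × ℝ) :
    step t ψ (step t ψ w) = (2 * cos θ * (step t ψ w).1 - w.1, 2 * cos θ * (step t ψ w).2 - w.2) := by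
  have hcs := sin_sq_add_cos_sq ψ
  have h1 : t * t⁻¹ = 1 := mul_inv_cancel₀ ht.ne'
  unfold step
  rw [← h]
  ext
  · simp only
    linear_combination (-w.1) * hcs +
      (-(sin ψ * (sin ψ * w.1 + cos ψ * w.2)) - cos ψ * (cos ψ * w.1 - sin ψ * w.2)) * h1
  · simp only
    linear_combination (-w.2) * hcs +
      (sin ψ * (cos ψ * w.1 - sin ψ * w.2) - cos ψ * (sin ψ * w.1 + cos ψ * w.2)) * h1

theorem cross_iter {t ψ θ : ℝ} (ht : 0 < t) (h : (t + t⁻¹) * cos ψ = 2 * cos θ) (w : ℝ × ℝ) :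
    ∀ k : ℕ, (w.1 * ((step t ψ)^[k] w).2 - w.2 * ((step t ψ)^[k] w).1) * sin θ =
      sin (k * θ) * (w.1 * (step t ψ w).2 - w.2 * (step t ψ w).1) := by
  intro k
  induction k using Nat.strong_induction_on with
  | _ k ih =>
    match k with
    | 0 => simp only [Function.iterate_zero, id_eq, Nat.cast_zero, zero_mul, sin_zero]; ring
    | 1 => simp only [Function.iterate_one, Nat.cast_one, one_mul]; ring
    | (m + 2) =>
      have i1 := ih (m + 1) (by omega)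
      have i0 := ih m (by omega)
      rw [Function.iterate_succ_apply', Function.iterate_succ_apply', step_step ht h,
        ← Function.iterate_succ_apply' (step t ψ) m w]
      have e : sin (((m + 2 : ℕ) : ℝ) * θ) =
          2 * cos θ * sin (((m + 1 : ℕ) : ℝ) * θ) - sin ((m : ℝ) * θ) := by
        have e1 : (((m + 2 : ℕ) : ℝ) * θ) = ((m + 1 : ℕ) : ℝ) * θ + θ := by push_cast; ring
        have e2 : ((m : ℝ) * θ) = ((m + 1 : ℕ) : ℝ) * θ - θ := by push_cast; ring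
        rw [e1, e2, sin_add, sin_sub]; ring
      rw [e]
      simp only
      linear_combination (2 * cos θ) * i1 - i0

theorem cross_one_pos {t ψ θ : ℝ} (ht : 0 < t) (h : (t + t⁻¹) * cos ψ = 2 * cos θ)
    (hψ : 0 < sin ψ) (hθ : 0 < sin θ) (x : ℝ) :
    0 < cos x * (step t ψ (cos x, sin x)).2 - sin x * (step t ψ (cos x, sin x)).1 := by
  unfold step
  simp only
  have h1 : t * t⁻¹ = 1 := mul_inv_cancel₀ ht.ne'
  have hcs := sin_sq_add_cos_sq ψ
  have hct := sin_sq_add_cos_sq θ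
  have hcx := sin_sq_add_cos_sq x
  have hA : 0 < t⁻¹ * sin ψ := by positivity
  have key : (t⁻¹ * sin ψ) * (cos x * (t⁻¹ * (sin ψ * cos x + cos ψ * sin x)) -
      sin x * (t * (cos ψ * cos x - sin ψ * sin x))) =
      (t⁻¹ * sin ψ * cos x + (t⁻¹ - t) * cos ψ * sin x / 2) ^ 2 + sin θ ^ 2 * sin x ^ 2 := by
    have e1 : sin θ ^ 2 = 1 - ((t + t⁻¹) * cos ψ) ^ 2 / 4 := by rw [h]; linarith
    rw [e1]
    have e2 : (1:ℝ) = (t * t⁻¹) * (sin ψ ^ 2 + cos ψ ^ 2) := by rw [h1, hcs]; ring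
    rw [e2]
    ring
  have pos : 0 < (t⁻¹ * sin ψ * cos x + (t⁻¹ - t) * cos ψ * sin x / 2) ^ 2 +
      sin θ ^ 2 * sin x ^ 2 := by
    rcases eq_or_ne (sin x) 0 with hs | hs
    · rw [hs] at hcx ⊢
      have : cos x ^ 2 = 1 := by linarith
      have : (t⁻¹ * sin ψ * cos x + (t⁻¹ - t) * cos ψ * 0 / 2) ^ 2 = (t⁻¹ * sin ψ) ^ 2 := by
        calc _ = (t⁻¹ * sin ψ) ^ 2 * cos x ^ 2 := by ring
          _ = _ := by rw [this]; ring
      rw [this]; positivity
    · have : 0 < sin x ^ 2 := by positivity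
      positivity
  rw [← key] at pos
  exact (mul_pos_iff_of_pos_left hA).1 pos

/-- one step of the lift of the elliptic element -/
theorem M_vec {t ψ : ℝ} (ht : 0 < t) (y : ℝ) : ∃ r : ℝ, 0 < r ∧
    step t ψ (cos (y / 2), sin (y / 2)) =
      (r * cos (hf t (y + 2 * ψ) / 2), r * sin (hf t (y + 2 * ψ) / 2)) := by
  obtain ⟨r, hr, hc, hs⟩ := hf_vec ht (y + 2 * ψ)
  refine ⟨r, hr, ?_⟩
  rw [← hc, ← hs]
  have e : (y + 2 * ψ) / 2 = y / 2 + ψ := by ring
  rw [e, cos_add, sin_add]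
  unfold step
  ext
  · simp only; ring
  · simp only; ring

theorem step_smul (t ψ r : ℝ) (w : ℝ × ℝ) : step t ψ (r * w.1, r * w.2) =
    (r * (step t ψ w).1, r * (step t ψ w).2) := by
  unfold step; ext
  · simp only; ring
  · simp only; ring

theorem M_bounds {t ψ θ : ℝ} (ht : 0 < t) (h : (t + t⁻¹) * cos ψ = 2 * cos θ)
    (hψ0 : 0 < ψ) (hψ1 : ψ < π / 2) (hθ : 0 < sin θ) (y : ℝ) :
    0 < hf t (y + 2 * ψ) - y ∧ hf t (y + 2 * ψ) - y < 2 * π := by
  obtain ⟨r, hr, hv⟩ := M_vec (ψ := ψ) ht y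
  have hc := cross_one_pos ht h (sin_pos_of_pos_of_lt_pi hψ0 (by linarith [pi_pos])) hθ (y / 2)
  rw [hv] at hc
  simp only at hc
  have hs : 0 < sin ((hf t (y + 2 * ψ) - y) / 2) := by
    have e : (hf t (y + 2 * ψ) - y) / 2 = hf t (y + 2 * ψ) / 2 - y / 2 := by ring
    rw [e, sin_sub]
    have : cos (y / 2) * (r * sin (hf t (y + 2 * ψ) / 2)) - sin (y / 2) * (r * cos (hf t (y + 2 * ψ) / 2))
      = r * (sin (hf t (y + 2 * ψ) / 2) * cos (y / 2) - cos (hf t (y + 2 * ψ) / 2) * sin (y / 2)) := by ring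
    rw [this] at hc
    exact (mul_pos_iff_of_pos_left hr).1 hc
  have hd := abs_lt.1 (abs_dl_lt t (y + 2 * ψ))
  have e1 : hf t (y + 2 * ψ) - y = 2 * ψ + dl t (y + 2 * ψ) := by unfold hf; ring
  constructor
  · by_contra hneg
    push Not at hneg
    have : sin ((hf t (y + 2 * ψ) - y) / 2) ≤ 0 := by
      apply sin_nonpos_of_nonpos_of_neg_pi_le
      · linarith
      · rw [e1]; linarith [hd.1, pi_pos]
    linarith
  · rw [e1]; linarith [hd.2]

/-- the lift of the elliptic element -/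
noncomputable def Mh (t : ℝ) (ht : 0 < t) (ψ : ℝ) : ℝ ≃ₜ ℝ := hT t ht * tr (2 * ψ)

theorem Mh_apply (t : ℝ) (ht : 0 < t) (ψ y : ℝ) : Mh t ht ψ y = hf t (y + 2 * ψ) := rfl

theorem Mh_iter_vec {t ψ : ℝ} (ht : 0 < t) (x : ℝ) : ∀ k : ℕ, ∃ r : ℝ, 0 < r ∧
    (step t ψ)^[k] (cos (x / 2), sin (x / 2)) =
      (r * cos ((Mh t ht ψ ^ k) x / 2), r * sin ((Mh t ht ψ ^ k) x / 2)) := by
  intro k
  induction k with
  | zero => exact ⟨1, one_pos, by simp⟩
  | succ k ih =>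
    obtain ⟨r, hr, hv⟩ := ih
    obtain ⟨r2, hr2, hv2⟩ := M_vec (ψ := ψ) ht ((Mh t ht ψ ^ k) x)
    refine ⟨r * r2, mul_pos hr hr2, ?_⟩
    rw [Function.iterate_succ_apply', hv,
      step_smul t ψ r (cos ((Mh t ht ψ ^ k) x / 2), sin ((Mh t ht ψ ^ k) x / 2)), hv2, pow_succ',
      Homeomorph.mul_apply, Mh_apply]
    ext
    · simp only; ring
    · simp only; ring

theorem Mh_pow {t ψ θ : ℝ} (ht : 0 < t) (h : (t + t⁻¹) * cos ψ = 2 * cos θ)
    (hψ0 : 0 < ψ) (hψ1 : ψ < π / 2) (hθ0 : 0 < θ) (n : ℕ) (hn1 : 1 < n) (hn : n * θ = π) (x : ℝ) :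
    (Mh t ht ψ ^ n) x = x + 2 * π := by
  have hn0 : (0:ℝ) < n := by positivity
  have hn1' : (1:ℝ) < n := by exact_mod_cast hn1
  have hθπ : θ < π := by nlinarith
  have hsθ : 0 < sin θ := sin_pos_of_pos_of_lt_pi hθ0 hθπ
  have hκ := cross_one_pos ht h (sin_pos_of_pos_of_lt_pi hψ0 (by linarith [pi_pos])) hsθ (x / 2)
  -- sign of the sine of the angle
  have hsin : ∀ k : ℕ, ∃ r : ℝ, 0 < r ∧ r * sin (((Mh t ht ψ ^ k) x - x) / 2) = sin (k * θ) := by
    intro k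
    obtain ⟨r, hr, hv⟩ := Mh_iter_vec (ψ := ψ) ht x k
    have hc := cross_iter ht h (cos (x / 2), sin (x / 2)) k
    rw [hv] at hc
    simp only at hc
    set κ := cos (x / 2) * (step t ψ (cos (x / 2), sin (x / 2))).2 -
      sin (x / 2) * (step t ψ (cos (x / 2), sin (x / 2))).1 with hκd
    refine ⟨r * sin θ / κ, by positivity, ?_⟩
    have e : ((Mh t ht ψ ^ k) x - x) / 2 = (Mh t ht ψ ^ k) x / 2 - x / 2 := by ring
    rw [e, sin_sub]
    field_simp
    linear_combination hc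
  have main : ∀ k : ℕ, k < n → 0 ≤ ((Mh t ht ψ ^ k) x - x) / 2 ∧ ((Mh t ht ψ ^ k) x - x) / 2 < π := by
    intro k
    induction k with
    | zero => intro _; simp [pi_pos]
    | succ k ih =>
      intro hk
      obtain ⟨i0, i1⟩ := ih (by omega)
      have hb := M_bounds ht h hψ0 hψ1 hsθ ((Mh t ht ψ ^ k) x)
      have e : (Mh t ht ψ ^ (k + 1)) x = hf t ((Mh t ht ψ ^ k) x + 2 * ψ) := by
        rw [pow_succ', Homeomorph.mul_apply, Mh_apply]
      rw [e]
      refine ⟨by linarith [hb.1], ?_⟩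
      by_contra hge
      push Not at hge
      obtain ⟨r, hr, hs⟩ := hsin (k + 1)
      rw [e] at hs
      have hpos : 0 < sin (((k + 1 : ℕ) : ℝ) * θ) := by
        apply sin_pos_of_pos_of_lt_pi
        · positivity
        · rw [← hn]
          have : ((k + 1 : ℕ) : ℝ) < n := by exact_mod_cast hk
          exact mul_lt_mul_of_pos_right this hθ0
      rw [← hs] at hpos
      have hsp := (mul_pos_iff_of_pos_left hr).1 hpos
      have : sin ((hf t ((Mh t ht ψ ^ k) x + 2 * ψ) - x) / 2) ≤ 0 := by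
        have e3 : sin ((hf t ((Mh t ht ψ ^ k) x + 2 * ψ) - x) / 2) =
          - sin ((hf t ((Mh t ht ψ ^ k) x + 2 * ψ) - x) / 2 - π) := by rw [sin_sub_pi]; ring
        rw [e3]
        have := sin_nonneg_of_nonneg_of_le_pi
          (x := (hf t ((Mh t ht ψ ^ k) x + 2 * ψ) - x) / 2 - π) (by linarith) (by linarith [hb.2])
        linarith
      linarith
  obtain ⟨m, rfl⟩ : ∃ m, n = m + 1 := ⟨n - 1, by omega⟩
  obtain ⟨i0, i1⟩ := main m (by omega)
  have hb := M_bounds ht h hψ0 hψ1 hsθ ((Mh t ht ψ ^ m) x)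
  have e : (Mh t ht ψ ^ (m + 1)) x = hf t ((Mh t ht ψ ^ m) x + 2 * ψ) := by
    rw [pow_succ', Homeomorph.mul_apply, Mh_apply]
  obtain ⟨r, hr, hs⟩ := hsin (m + 1)
  rw [hn, sin_pi] at hs
  have hs0 : sin (((Mh t ht ψ ^ (m + 1)) x - x) / 2) = 0 := by
    rcases mul_eq_zero.1 hs with h | h
    · exact absurd h hr.ne'
    · exact h
  have hsπ : sin (((Mh t ht ψ ^ (m + 1)) x - x) / 2 - π) = 0 := by
    rw [sin_sub_pi, hs0, neg_zero]
  rw [e] at hsπ ⊢
  have := (sin_eq_zero_iff_of_lt_of_lt (by linarith [hb.1]) (by linarith [hb.2])).1 hsπ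
  linarith

/-! ### the product of conjugates -/

theorem prod_conj {G : Type*} [Group G] (R T : G) : ∀ n : ℕ,
    (List.ofFn fun k : Fin n => R ^ (k : ℕ) * T * (R ^ (k : ℕ))⁻¹).prod * R ^ n = (T * R) ^ n := by
  intro n
  induction n with
  | zero => simp
  | succ n ih =>
    rw [List.ofFn_succ_last, List.prod_append, List.prod_singleton, pow_succ (T * R), ← ih]
    simp only [Fin.val_castSucc, Fin.val_last]
    rw [pow_succ]
    group

theorem tr_pow (a : ℝ) (n : ℕ) : tr a ^ n = tr (n * a) := by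
  induction n with
  | zero => ext x; simp [tr]
  | succ n ih => rw [pow_succ, ih]; ext x; simp [tr]; ring

theorem tr_inv (a : ℝ) : (tr a)⁻¹ = tr (-a) := by
  ext x; simp [tr, Homeomorph.addRight_symm]

theorem main_prod {t ψ θ : ℝ} (ht : 0 < t) (h : (t + t⁻¹) * cos ψ = 2 * cos θ)
    (hψ0 : 0 < ψ) (hψ1 : ψ < π / 2) (hθ0 : 0 < θ) (n : ℕ) (hn1 : 1 < n) (hn : n * θ = π)
    (s : ℝ) (hs : 0 < s) (hst : s * s = t) :
    (List.ofFn fun k : Fin n =>
      ⁅tr (2 * ψ) ^ (k : ℕ) * hT s hs * (tr (2 * ψ) ^ (k : ℕ))⁻¹, tr π⁆).prod =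
      tr (2 * π - n * (2 * ψ)) := by
  have h1 : ∀ k : ℕ, ⁅tr (2 * ψ) ^ k * hT s hs * (tr (2 * ψ) ^ k)⁻¹, tr π⁆ =
      tr (2 * ψ) ^ k * hT t ht * (tr (2 * ψ) ^ k)⁻¹ := by
    intro k
    have hc : tr π = tr (2 * ψ) ^ k * tr π * (tr (2 * ψ) ^ k)⁻¹ := by
      rw [tr_pow, tr_inv]; ext x; simp [tr]; ring
    have h2 : ⁅tr (2 * ψ) ^ k * hT s hs * (tr (2 * ψ) ^ k)⁻¹, tr π⁆ =
      tr (2 * ψ) ^ k * ⁅hT s hs, tr π⁆ * (tr (2 * ψ) ^ k)⁻¹ := by
      nth_rewrite 1 [hc]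
      rw [commutatorElement_def, commutatorElement_def]
      group
    rw [h2, comm_hT]
    subst hst
    rfl
  have h2 : (List.ofFn fun k : Fin n =>
      ⁅tr (2 * ψ) ^ (k : ℕ) * hT s hs * (tr (2 * ψ) ^ (k : ℕ))⁻¹, tr π⁆) =
      (List.ofFn fun k : Fin n => tr (2 * ψ) ^ (k : ℕ) * hT t ht * (tr (2 * ψ) ^ (k : ℕ))⁻¹) := by
    congr 1
    funext k
    exact h1 k
  rw [h2, ← mul_inv_eq_iff_eq_mul.2 (prod_conj (tr (2 * ψ)) (hT t ht) n).symm]
  ext x
  have := Mh_pow ht h hψ0 hψ1 hθ0 n hn1 hn ((tr (2 * ψ) ^ n)⁻¹ x)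
  rw [Homeomorph.mul_apply]
  change (Mh t ht ψ ^ n) ((tr (2 * ψ) ^ n)⁻¹ x) = _
  rw [this, tr_pow, tr_inv]
  simp [tr]
  ring

/-! ### the two signs -/

/-- orientation reversal -/
noncomputable def J : ℝ ≃ₜ ℝ := Homeomorph.neg ℝ

theorem J_tr (a : ℝ) : J * tr a * J⁻¹ = tr (-a) := by
  ext x; simp [J, tr]; ring

theorem J_hT (s : ℝ) (hs : 0 < s) : J * hT s hs * J⁻¹ = hT s hs := by
  ext x
  change -(hf s (-x)) = hf s x
  unfold hf
  have : dl s (-x) = -dl s x := by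
    unfold dl dN dD
    have e : -x / 2 = -(x / 2) := by ring
    rw [e, sin_neg, cos_neg]
    rw [← mul_neg, ← arctan_neg]
    congr 2
    ring
  rw [this]; ring

/-- The product of commutators, for both signs. -/
theorem main_prod_sign {t ψ θ : ℝ} (ht : 0 < t) (h : (t + t⁻¹) * cos ψ = 2 * cos θ)
    (hψ0 : 0 < ψ) (hψ1 : ψ < π / 2) (hθ0 : 0 < θ) (n : ℕ) (hn1 : 1 < n) (hn : n * θ = π)
    (s : ℝ) (hs : 0 < s) (hst : s * s = t) (σ : ℝ) (hσ : σ = 1 ∨ σ = -1) :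
    (List.ofFn fun k : Fin n =>
      ⁅tr (σ * (2 * ψ)) ^ (k : ℕ) * hT s hs * (tr (σ * (2 * ψ)) ^ (k : ℕ))⁻¹, tr (σ * π)⁆).prod =
      tr (σ * (2 * π - n * (2 * ψ))) := by
  have key := main_prod ht h hψ0 hψ1 hθ0 n hn1 hn s hs hst
  rcases hσ with rfl | rfl
  · simpa only [one_mul] using key
  · have h2 := congrArg (MulAut.conj J) key
    rw [map_list_prod, List.map_ofFn] at h2
    simp only [MulAut.conj_apply, J_tr] at h2
    have e0 : tr (-1 * (2 * π - n * (2 * ψ))) = tr (-(2 * π - n * (2 * ψ))) := by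
      rw [neg_one_mul]
    rw [e0, ← h2]
    congr 2
    funext k
    simp only [Function.comp_apply, MulAut.conj_apply]
    have e1 : tr (-1 * (2 * ψ)) = J * tr (2 * ψ) * J⁻¹ := by rw [J_tr]; congr 1; ring
    have e2 : tr (-1 * π) = J * tr π * J⁻¹ := by rw [J_tr]; congr 1; ring
    rw [e1, e2]
    nth_rewrite 1 [← J_hT s hs]
    simp only [commutatorElement_def]
    have hp : ∀ m : ℕ, (J * tr (2 * ψ) * J⁻¹) ^ m = J * tr (2 * ψ) ^ m * J⁻¹ := fun m => conj_pow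
    rw [hp]
    group

/-! ### size estimates -/

theorem abs_arctan_le (u : ℝ) : |arctan u| ≤ |u| := by
  have h : ∀ v : ℝ, 0 ≤ v → arctan v ≤ v := by
    intro v hv
    have h1 := Real.le_tan (x := arctan v) (by simpa using arctan_nonneg.2 hv) (arctan_lt_pi_div_two v)
    rwa [tan_arctan] at h1
  rcases le_total 0 u with hu | hu
  · rw [abs_of_nonneg hu, abs_of_nonneg (arctan_nonneg.2 hu)]; exact h u hu
  · rw [abs_of_nonpos hu, abs_of_nonpos (arctan_le_zero.2 hu), ← arctan_neg]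
    exact h (-u) (by linarith)

theorem abs_dl_le {s : ℝ} (hs : 0 < s) (x : ℝ) : |dl s x| ≤ |s⁻¹ - s| := by
  have hD := dD_pos hs x
  have h1 : |dN s x / dD s x| ≤ |s⁻¹ - s| / 2 := by
    rw [abs_div, abs_of_pos hD, div_le_iff₀ hD]
    have hN : |dN s x| = s * |s⁻¹ - s| * (|sin (x / 2)| * |cos (x / 2)|) := by
      unfold dN
      rw [abs_mul, abs_mul]
      congr 1
      have : 1 - s ^ 2 = s * (s⁻¹ - s) := by field_simp
      rw [this, abs_mul, abs_of_pos hs]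
    rw [hN]
    have hsq : 2 * s * (|sin (x / 2)| * |cos (x / 2)|) ≤ dD s x := by
      unfold dD
      have := sq_nonneg (s * |cos (x / 2)| - |sin (x / 2)|)
      have a1 := sq_abs (cos (x / 2))
      have a2 := sq_abs (sin (x / 2))
      nlinarith
    have := mul_le_mul_of_nonneg_left hsq (abs_nonneg (s⁻¹ - s))
    nlinarith
  unfold dl
  rw [abs_mul, abs_of_pos (by norm_num : (0:ℝ) < 2)]
  have := abs_arctan_le (dN s x / dD s x)
  linarith

/-- existence of `s` with all the needed properties -/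
theorem exists_s {ψ θ : ℝ} (hψ0 : 0 < ψ) (hψ1 : ψ ≤ π / 3) (hθ0 : 0 < θ) (hθψ : θ ≤ ψ) :
    ∃ s : ℝ, ∃ _ : 0 < s, (s * s + (s * s)⁻¹) * cos ψ = 2 * cos θ ∧ |s⁻¹ - s| ≤ 2 * ψ := by
  have hpi := pi_pos
  have hcψ : 1 / 2 ≤ cos ψ := by
    rw [← cos_pi_div_three]
    exact cos_le_cos_of_nonneg_of_le_pi hψ0.le (by linarith) hψ1
  have hcψ0 : 0 < cos ψ := by linarith
  have hcc : cos ψ ≤ cos θ := cos_le_cos_of_nonneg_of_le_pi hθ0.le (by linarith) hθψ
  set c := cos θ / cos ψ with hc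
  have hc1 : 1 ≤ c := by rw [hc, le_div_iff₀ hcψ0]; linarith
  set q := √(c ^ 2 - 1) with hq
  have hq2 : q ^ 2 = c ^ 2 - 1 := Real.sq_sqrt (by nlinarith)
  have hq0 : 0 ≤ q := Real.sqrt_nonneg _
  set t := c + q with ht
  have ht0 : 0 < t := by linarith
  have htinv : t⁻¹ = c - q := by
    apply inv_eq_of_mul_eq_one_right
    rw [ht]; nlinarith
  refine ⟨√t, Real.sqrt_pos.2 ht0, ?_, ?_⟩
  · rw [Real.mul_self_sqrt ht0.le, htinv, ht]
    have : (c + q + (c - q)) = 2 * c := by ring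
    rw [this, hc]
    field_simp
  · apply abs_le_of_sq_le_sq _ (by linarith)
    have h1 : ((√t)⁻¹ - √t) ^ 2 = 2 * (c - 1) := by
      have e : ((√t)⁻¹ - √t) ^ 2 = (√t * √t)⁻¹ + √t * √t - 2 * ((√t)⁻¹ * √t) := by
        rw [mul_inv]; ring
      rw [e, Real.mul_self_sqrt ht0.le, inv_mul_cancel₀ (Real.sqrt_pos.2 ht0).ne', htinv, ht]
      ring
    rw [h1]
    have h2 : c - 1 ≤ ψ ^ 2 := by
      have : c - 1 = (cos θ - cos ψ) / cos ψ := by rw [hc]; field_simp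
      rw [this, div_le_iff₀ hcψ0]
      have h3 := Real.one_sub_sq_div_two_le_cos (x := ψ)
      have h4 := Real.cos_le_one θ
      nlinarith [sq_nonneg ψ]
    nlinarith [sq_nonneg ψ]

/-- closeness to rotations -/
theorem close_of_lift {p : PSL2R} {F : ℝ ≃ₜ ℝ} (hF : IsLift p F) {ε a : ℝ}
    (h : ∀ x, |F x - (x + a)| ≤ ε) : ClosePSL ε p (rot a) := by
  intro x y z h1 h2
  rw [hF.2, pt_eq_iff] at h1
  rw [(isLift_rot a).2, pt_eq_iff] at h2
  obtain ⟨k1, h1⟩ := h1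
  obtain ⟨k2, h2⟩ := h2
  have h2' : x + a - z = 2 * π * k2 := h2
  refine ⟨k2 - k1, ?_⟩
  have e : y - z - 2 * π * ((k2 - k1 : ℤ) : ℝ) = F x - (x + a) := by push_cast; linarith
  rw [e]
  exact h x

/-- Main construction. -/
theorem exists_rep (E n : ℕ) (hn : 3 * (E + 1) ≤ n) (σ : ℝ) (hσ : σ = 1 ∨ σ = -1) (e : ℤ)
    (he : (e : ℝ) = -(σ * E)) (ε : ℝ) (hε : 2 * π * (E + 1) / n ≤ ε) :
    ∃ ρ : SurfaceGroup n →* PSL2R, HasEulerNumber ρ e ∧
      NearRotations ε (Set.range PresentedGroup.of) ρ := by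
  have hpi := pi_pos
  have hn0 : (0:ℝ) < n := by
    have : 0 < n := by omega
    exact_mod_cast this
  have hnR : 3 * ((E:ℝ) + 1) ≤ n := by exact_mod_cast hn
  have hE0 : (0:ℝ) ≤ E := Nat.cast_nonneg E
  set θ : ℝ := π / n with hθ
  set ψ : ℝ := (E + 1) * π / n with hψ
  have hθ0 : 0 < θ := by positivity
  have hψ0 : 0 < ψ := by positivity
  have hψ1 : ψ ≤ π / 3 := by
    rw [hψ, div_le_div_iff₀ hn0 (by norm_num)]
    nlinarith
  have hθψ : θ ≤ ψ := by
    rw [hθ, hψ]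
    apply div_le_div_of_nonneg_right _ hn0.le
    nlinarith
  obtain ⟨s, hs, hst, hsm⟩ := exists_s hψ0 hψ1 hθ0 hθψ
  have hnθ : (n : ℝ) * θ = π := by rw [hθ]; field_simp
  have hprod := main_prod_sign (mul_pos hs hs) hst hψ0 (by linarith) hθ0 n (by omega) hnθ s hs rfl
    σ hσ
  set A : Fin n → (ℝ ≃ₜ ℝ) := fun k =>
    tr (σ * (2 * ψ)) ^ (k : ℕ) * hT s hs * (tr (σ * (2 * ψ)) ^ (k : ℕ))⁻¹ with hA
  set B : Fin n → (ℝ ≃ₜ ℝ) := fun _ => tr (σ * π) with hB
  set a : Fin n → PSL2R := fun k =>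
    rot (σ * (2 * ψ)) ^ (k : ℕ) * (dMat s hs : PSL2R) * (rot (σ * (2 * ψ)) ^ (k : ℕ))⁻¹ with ha
  set b : Fin n → PSL2R := fun _ => rot (σ * π) with hb
  have hlA : ∀ k, IsLift (a k) (A k) := fun k =>
    (((isLift_rot _).pow _).mul (isLift_hT s hs)).mul ((isLift_rot _).pow _).inv
  have hlB : ∀ k, IsLift (b k) (B k) := fun k => isLift_rot _
  have htrans : ∀ x, (List.ofFn fun i => ⁅A i, B i⁆).prod x = x + 2 * π * e := by
    intro x
    have : (List.ofFn fun i => ⁅A i, B i⁆).prod = tr (σ * (2 * π - n * (2 * ψ))) := hprod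
    rw [this]
    simp only [tr, Homeomorph.coe_addRight]
    rw [he, hψ]
    field_simp
    ring
  have hrel : (List.ofFn fun i => ⁅a i, b i⁆).prod = 1 :=
    eq_one_of_lift (IsLift.ofFn_prod _ _ fun i => (hlA i).comm (hlB i)) e htrans
  set f : Fin n × Bool → PSL2R := fun i => if i.2 then b i.1 else a i.1 with hf'
  have hfr : ∀ r ∈ ({surfaceRelator n} : Set (FreeGroup (Fin n × Bool))), FreeGroup.lift f r = 1 := by
    intro r hr
    rw [Set.mem_singleton_iff] at hr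
    rw [hr]
    unfold surfaceRelator
    rw [map_list_prod, List.map_ofFn, ← hrel]
    congr 2
    funext i
    simp [hf', commutatorElement_def]
  refine ⟨PresentedGroup.toGroup hfr, ⟨A, B, ?_, ?_, htrans⟩, ?_⟩
  · intro i
    rw [PresentedGroup.toGroup.of]
    simpa [hf'] using hlA i
  · intro i
    rw [PresentedGroup.toGroup.of]
    simpa [hf'] using hlB i
  · rintro _ ⟨⟨i, c⟩, rfl⟩
    rw [PresentedGroup.toGroup.of]
    cases c with
    | true =>
      refine ⟨σ * π, ?_⟩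
      simp only [hf', if_true]
      apply close_of_lift (hlB i)
      intro x
      simp only [hB, tr, Homeomorph.coe_addRight, sub_self, abs_zero]
      exact le_trans (by positivity) hε
    | false =>
      refine ⟨0, ?_⟩
      simp only [hf']
      apply close_of_lift (hlA i)
      intro x
      simp only [hA, tr_pow, tr_inv, Homeomorph.mul_apply]
      change |hf s (x + -(((i : ℕ) : ℝ) * (σ * (2 * ψ)))) + ((i : ℕ) : ℝ) * (σ * (2 * ψ)) - (x + 0)| ≤ ε
      have e1 : hf s (x + -(((i : ℕ) : ℝ) * (σ * (2 * ψ)))) + ((i : ℕ) : ℝ) * (σ * (2 * ψ)) - (x + 0)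
        = dl s (x + -(((i : ℕ) : ℝ) * (σ * (2 * ψ)))) := by
        unfold hf; ring
      rw [e1]
      refine (abs_dl_le hs _).trans (hsm.trans (le_trans (le_of_eq ?_) hε))
      rw [hψ]; ring

/-! ### sanity check: the Euler number is well defined -/

theorem lift_unique {p : PSL2R} {F G : ℝ ≃ₜ ℝ} (hF : IsLift p F) (hG : IsLift p G) :
    ∃ k : ℤ, G = tr (2 * π * k) * F := by
  have h : ∀ x, ∃ k : ℤ, G x - F x = 2 * π * k := fun x => by
    rw [← pt_eq_iff, ← hG.2, ← hF.2]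
  have hpi := pi_pos
  obtain ⟨c, hc, hc2⟩ := (isPreconnected_univ (α := ℝ)).eqOn_const_of_mapsTo
    (Int.isClosedEmbedding_coe_real.isInducing.isDiscrete_range)
    (f := fun x => (G x - F x) / (2 * π))
    ((by fun_prop : Continuous fun x => (G x - F x) / (2 * π)).continuousOn)
    (fun x _ => by
      obtain ⟨k, hk⟩ := h x
      exact ⟨k, by simp only; rw [hk]; field_simp⟩) ⟨0, 0, by simp⟩
  obtain ⟨k, rfl⟩ := hc
  refine ⟨k, ?_⟩
  ext x
  have := hc2 (Set.mem_univ x)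
  simp only [Function.const_apply] at this
  rw [div_eq_iff (by positivity)] at this
  simp [tr]
  linarith

theorem IsLift.commute {p : PSL2R} {F : ℝ ≃ₜ ℝ} (hF : IsLift p F) (k : ℤ) :
    Commute (tr (2 * π * k)) F := by
  have h1 : Commute (tr (2 * π)) F := by
    ext x
    simp only [Homeomorph.mul_apply]
    change F x + 2 * π = F (x + 2 * π)
    rw [hF.1]
  have h2 : tr (2 * π * k) = tr (2 * π) ^ k := by
    have hz : ∀ n : ℕ, tr (2 * π) ^ n = tr (2 * π * n) := fun n => by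
      rw [tr_pow]; congr 1; ring
    cases k with
    | ofNat n => simp [hz]
    | negSucc n =>
      rw [zpow_negSucc, hz, tr_inv]; congr 1; push_cast; ring
  rw [h2]
  exact h1.zpow_left k

theorem comm_eq {G : Type*} [Group G] {u v F K : G} (huF : Commute u F) (huK : Commute u K)
    (hvF : Commute v F) (huv : Commute u v) (hvK : Commute v K) :
    ⁅u * F, v * K⁆ = ⁅F, K⁆ := by
  rw [commutatorElement_def, commutatorElement_def]
  have e1 : u * F * (v * K) = (u * v) * (F * K) := by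
    rw [mul_assoc, ← mul_assoc F, ← hvF.eq]; group
  have e2 : (u * F)⁻¹ * (v * K)⁻¹ = F⁻¹ * K⁻¹ * (u * v)⁻¹ := by
    rw [← _root_.mul_inv_rev, ← _root_.mul_inv_rev, ← _root_.mul_inv_rev]
    congr 1
    rw [mul_assoc v, ← mul_assoc K, ← huK.eq, huv.eq]; group
  have hc : Commute (u * v) (F * K * (F⁻¹ * K⁻¹)) := by
    have a1 : Commute (u * v) F := huF.mul_left hvF
    have a2 : Commute (u * v) K := huK.mul_left hvK
    exact (a1.mul_right a2).mul_right (a1.inv_right.mul_right a2.inv_right)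
  calc u * F * (v * K) * (u * F)⁻¹ * (v * K)⁻¹ = u * F * (v * K) * ((u * F)⁻¹ * (v * K)⁻¹) := by
        group
    _ = (u * v) * (F * K * (F⁻¹ * K⁻¹)) * (u * v)⁻¹ := by rw [e1, e2]; group
    _ = F * K * (F⁻¹ * K⁻¹) := by rw [hc.eq]; group
    _ = F * K * F⁻¹ * K⁻¹ := by group

/-- The Euler number does not depend on the lifts. -/
theorem HasEulerNumber.unique {g : ℕ} {ρ : SurfaceGroup g →* PSL2R} {e e' : ℤ}
    (h : HasEulerNumber ρ e) (h' : HasEulerNumber ρ e') : e = e' := by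
  obtain ⟨α, β, hα, hβ, he⟩ := h
  obtain ⟨α', β', hα', hβ', he'⟩ := h'
  have hc : ∀ i, ⁅α' i, β' i⁆ = ⁅α i, β i⁆ := by
    intro i
    obtain ⟨k, hk⟩ := lift_unique (hα i) (hα' i)
    obtain ⟨l, hl⟩ := lift_unique (hβ i) (hβ' i)
    rw [hk, hl]
    have huv : Commute (tr (2 * π * k)) (tr (2 * π * l)) := by
      ext x; simp [tr]; ring
    exact comm_eq ((hα i).commute k) ((hβ i).commute k) ((hα i).commute l) huv ((hβ i).commute l)
  have h1 := he 0
  have h2 := he' 0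
  simp only [hc] at h2
  rw [h1] at h2
  have hpi := pi_pos
  have : (e : ℝ) = e' := by
    have h3 : 2 * π * (e : ℝ) = 2 * π * e' := by linarith
    exact mul_left_cancel₀ (by positivity) h3
  exact_mod_cast this

/-! ### final result -/

/-- Freedman's proposed lower bound for the Euler number `e`: there are `c > 0`, `C` and `ε₀ > 0`
with `g_e(ε) ≥ c |e| / (ε² + R(ε))`, `|R(ε)| ≤ C ε³`, for all `ε` in `(0, ε₀)`. -/
def LowerBound (e : ℤ) : Prop :=
  ∃ c C ε₀ : ℝ, 0 < c ∧ 0 < ε₀ ∧ ∃ R : ℝ → ℝ, ∀ ε : ℝ, 0 < ε → ε < ε₀ →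
    |R ε| ≤ C * ε ^ 3 ∧ c * |(e : ℝ)| / (ε ^ 2 + R ε) ≤ (gMin e ε : ℝ)

theorem exists_std (e : ℤ) (ε : ℝ) (h0 : 0 < ε) (h1 : ε ≤ 1) :
    ∃ g : ℕ, (g : ℝ) ≤ (2 * π * (|(e : ℝ)| + 1) + 1) / ε ∧
      ∃ ρ : SurfaceGroup g →* PSL2R, HasEulerNumber ρ e ∧
        NearRotations ε (Set.range PresentedGroup.of) ρ := by
  have hpi := pi_pos
  have hpi3 := pi_gt_three
  set E := e.natAbs with hE
  have hEe : (E : ℝ) = |(e : ℝ)| := by rw [hE, Nat.cast_natAbs, Int.cast_abs]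
  set y : ℝ := 2 * π * (E + 1) / ε with hy
  have hE0 : (0:ℝ) ≤ E := Nat.cast_nonneg E
  have hy0 : 0 < y := by positivity
  have hyn : y ≤ (⌈y⌉₊ : ℝ) := Nat.le_ceil y
  have hyl : 2 * π * (E + 1) ≤ y := by
    rw [hy, le_div_iff₀ h0]
    have : 0 ≤ 2 * π * ((E:ℝ) + 1) := by positivity
    nlinarith
  refine ⟨⌈y⌉₊, ?_, ?_⟩
  · have := (Nat.ceil_lt_add_one hy0.le).le
    refine this.trans ?_
    rw [← hEe, add_div]
    have : 1 ≤ 1 / ε := by rw [le_div_iff₀ h0]; linarith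
    linarith
  · have hn3 : 3 * (E + 1) ≤ ⌈y⌉₊ := by
      have : ((3 * (E + 1) : ℕ) : ℝ) ≤ (⌈y⌉₊ : ℝ) := by
        push_cast
        nlinarith
      exact_mod_cast this
    have hεn : 2 * π * (E + 1) / (⌈y⌉₊ : ℝ) ≤ ε := by
      rw [div_le_iff₀ (by linarith)]
      have : 2 * π * (E + 1) = ε * y := by rw [hy]; field_simp
      rw [this]
      exact mul_le_mul_of_nonneg_left hyn h0.le
    rcases le_total 0 e with he | he
    · refine exists_rep E ⌈y⌉₊ hn3 (-1) (Or.inr rfl) e ?_ ε hεn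
      rw [hEe, abs_of_nonneg (by exact_mod_cast he)]; ring
    · refine exists_rep E ⌈y⌉₊ hn3 1 (Or.inl rfl) e ?_ ε hεn
      rw [hEe, abs_of_nonpos (by exact_mod_cast he)]; ring

theorem admissible_of_std {e : ℤ} {ε ε' : ℝ} (h : ε ≤ ε') {g : ℕ} {ρ : SurfaceGroup g →* PSL2R}
    (h1 : HasEulerNumber ρ e) (h2 : NearRotations ε (Set.range PresentedGroup.of) ρ) :
    g ∈ admissible e ε' := by
  refine ⟨Set.range PresentedGroup.of, ρ, PresentedGroup.closure_range_of _, h1, ?_⟩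
  intro s hs
  obtain ⟨t, ht⟩ := h2 s hs
  refine ⟨t, fun x y z h3 h4 => ?_⟩
  obtain ⟨k, hk⟩ := ht x y z h3 h4
  exact ⟨k, hk.trans h⟩

theorem tendsto_gMin (e : ℤ) :
    Filter.Tendsto (fun ε : ℝ => ε ^ 2 * (gMin e ε : ℝ)) (nhdsWithin 0 (Set.Ioi 0)) (nhds 0) := by
  set K := 2 * π * (|(e : ℝ)| + 1) + 1 with hK
  have hlim : Filter.Tendsto (fun ε : ℝ => ε * K) (nhdsWithin 0 (Set.Ioi 0)) (nhds 0) := by
    have : Filter.Tendsto (fun ε : ℝ => ε * K) (nhds 0) (nhds (0 * K)) := by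
      apply Continuous.tendsto; fun_prop
    rw [zero_mul] at this
    exact this.mono_left nhdsWithin_le_nhds
  refine squeeze_zero' ?_ ?_ hlim
  · filter_upwards [self_mem_nhdsWithin] with ε _
    positivity
  · have hmem : Set.Ioo (0:ℝ) 1 ∈ nhdsWithin (0:ℝ) (Set.Ioi 0) := Ioo_mem_nhdsGT one_pos
    filter_upwards [hmem] with ε hε
    obtain ⟨g, hg, ρ, h1, h2⟩ := exists_std e ε hε.1 hε.2.le
    have h3 : gMin e ε ≤ g := Nat.sInf_le (admissible_of_std le_rfl h1 h2)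
    have h4 : (gMin e ε : ℝ) ≤ K / ε := (by exact_mod_cast h3 : (gMin e ε : ℝ) ≤ g).trans hg
    calc ε ^ 2 * (gMin e ε : ℝ) ≤ ε ^ 2 * (K / ε) := by
          apply mul_le_mul_of_nonneg_left h4; positivity
      _ = ε * K := by have := hε.1.ne'; field_simp

theorem not_lowerBound (e : ℤ) (he : e ≠ 0) : ¬ LowerBound e := by
  rintro ⟨c, C, ε₀, hc, hε₀, R, hR⟩
  have he' : 0 < |(e : ℝ)| := abs_pos.2 (by exact_mod_cast he)
  have hlim : Filter.Tendsto (fun ε : ℝ => (ε ^ 2 * (gMin e ε : ℝ)) * (1 + |C| * ε))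
      (nhdsWithin 0 (Set.Ioi 0)) (nhds 0) := by
    have h2 : Filter.Tendsto (fun ε : ℝ => 1 + |C| * ε) (nhdsWithin 0 (Set.Ioi 0)) (nhds (1 + |C| * 0)) := by
      apply Filter.Tendsto.mono_left _ nhdsWithin_le_nhds
      apply Continuous.tendsto; fun_prop
    have := (tendsto_gMin e).mul h2
    simpa using this
  have hev : ∀ᶠ ε in nhdsWithin (0:ℝ) (Set.Ioi 0), c * |(e : ℝ)| ≤ (ε ^ 2 * (gMin e ε : ℝ)) * (1 + |C| * ε) := by
    set δ := min ε₀ (1 / (|C| + 1)) with hδ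
    have hδ0 : 0 < δ := by
      apply lt_min hε₀; positivity
    filter_upwards [Ioo_mem_nhdsGT hδ0] with ε hε
    have hε1 : ε < ε₀ := lt_of_lt_of_le hε.2 (min_le_left _ _)
    have hε2 : ε < 1 / (|C| + 1) := lt_of_lt_of_le hε.2 (min_le_right _ _)
    have hε0 : 0 < ε := hε.1
    obtain ⟨hr, hb⟩ := hR ε hε0 hε1
    have hCε : |C| * ε < 1 := by
      rw [lt_div_iff₀ (by positivity)] at hε2
      nlinarith
    have hRlow : -(|C| * ε * ε ^ 2) ≤ R ε := by
      have h1 := (abs_le.1 hr).1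
      have h2 : C * ε ^ 3 ≤ |C| * ε ^ 3 := mul_le_mul_of_nonneg_right (le_abs_self C) (by positivity)
      have : |C| * ε ^ 3 = |C| * ε * ε ^ 2 := by ring
      linarith
    have hRup : R ε ≤ |C| * ε * ε ^ 2 := by
      have h1 := (abs_le.1 hr).2
      have h2 : C * ε ^ 3 ≤ |C| * ε ^ 3 := mul_le_mul_of_nonneg_right (le_abs_self C) (by positivity)
      have : |C| * ε ^ 3 = |C| * ε * ε ^ 2 := by ring
      linarith
    have hε2' : 0 < ε ^ 2 := by positivity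
    have hden : 0 < ε ^ 2 + R ε := by nlinarith
    rw [div_le_iff₀ hden] at hb
    have hg0 : (0:ℝ) ≤ (gMin e ε : ℝ) := Nat.cast_nonneg _
    calc c * |(e : ℝ)| ≤ (gMin e ε : ℝ) * (ε ^ 2 + R ε) := hb
      _ ≤ (gMin e ε : ℝ) * (ε ^ 2 + |C| * ε * ε ^ 2) := by
          apply mul_le_mul_of_nonneg_left _ hg0; linarith
      _ = (ε ^ 2 * (gMin e ε : ℝ)) * (1 + |C| * ε) := by ring
  have := ge_of_tendsto hlim hev
  have : 0 < c * |(e : ℝ)| := by positivity
  linarith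

/-- For every integer `e` there is a constant `K` such that for all `ε ∈ (0,1]` some closed
surface of genus at most `K / ε` carries a flat `PSL(2,ℝ)` circle bundle of Euler number `e` for
which all standard generators are `ε`-close to rotations. Hence `ε² g_e(ε) → 0`, and Freedman's
lower bound `g_e(ε) ≥ c|e|/(ε² + O(ε³))` fails for every `e ≠ 0`. -/
theorem result (e : ℤ) :
    (∃ K : ℝ, ∀ ε : ℝ, 0 < ε → ε ≤ 1 → ∃ g : ℕ, (g : ℝ) ≤ K / ε ∧
      ∃ ρ : SurfaceGroup g →* PSL2R, HasEulerNumber ρ e ∧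
        NearRotations ε (Set.range PresentedGroup.of) ρ) ∧
    (∀ ε : ℝ, 0 < ε → (admissible e ε).Nonempty) ∧
    Filter.Tendsto (fun ε : ℝ => ε ^ 2 * (gMin e ε : ℝ)) (nhdsWithin 0 (Set.Ioi 0)) (nhds 0) ∧
    (e ≠ 0 → ¬ LowerBound e) := by
  refine ⟨⟨_, fun ε h0 h1 => exists_std e ε h0 h1⟩, fun ε h0 => ?_, tendsto_gMin e,
    not_lowerBound e⟩
  obtain ⟨g, _, ρ, h1, h2⟩ := exists_std e (min ε 1) (lt_min h0 one_pos) (min_le_right _ _)
  exact ⟨g, admissible_of_std (min_le_left _ _) h1 h2⟩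

end Pool.Agent.Results.MP_b43922_gt.ControlledMilnorWood
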